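import Pool.Agent.X318.Crown

/-!
`Pool.Agent.X318.Crown.fvec n` is the `f`-vector `(f_{-1}, f_0, ..., f_{2n})` of the order polytope
of the crown `C_{2n}`, index shifted by one, given by the known face number formula of the problem
file: `fvec n 0 = 1` and `fvec n (k+1) = faceNum n k`.
-/

namespace Pool.Agent.Results.MP_00f856_co.LogConcave
open Pool.Agent.X318.Crown

theorem result (n : ℕ) (hn : 1 ≤ n) :
    (∀ j, j ≤ 2 * n + 1 → 0 < fvec n j) ∧
    (∀ j, 1 ≤ j → j ≤ 2 * n → fvec n (j - 1) * fvec n (j + 1) ≤ fvec n j ^ 2) :=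
  ⟨fun j hj => fvec_pos n j hn hj, fun j hj _ => fvec_lc n j hn hj⟩

end Pool.Agent.Results.MP_00f856_co.LogConcave
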